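import Pool.Agent.W743.HP.Stm

/-! Project HP (helper743): regularity of the radial functions. -/

set_option autoImplicit false

open Set Filter Topology

namespace Pool.Agent.W500.HP

open Pool.Agent.W743.HP

theorem summ (B K : ℕ) {r : ℝ} (hr0 : 0 < r) (hr : r < 1) :
    Summable (fun j : ℕ => ((B : ℝ) + j) ^ K * r ^ j) := by
  have h1 : Summable (fun n : ℕ => (n : ℝ) ^ K * r ^ n) :=
    summable_pow_mul_geometric_of_norm_lt_one K (by rw [Real.norm_eq_abs, abs_of_pos hr0]; exact hr)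
  have h2 := (summable_nat_add_iff B).2 h1
  have h3 := h2.mul_right (r ^ B)⁻¹
  refine h3.congr fun j => ?_
  have : r ^ B ≠ 0 := (pow_pos hr0 B).ne'
  push_cast
  rw [pow_add]
  field_simp
  ring

theorem summ' (a : ℕ → ℝ) (B K : ℕ) (h : ∀ j : ℕ, |a j| ≤ ((B : ℝ) + j) ^ K) {s : ℝ}
    (hs : |s| < 1) : Summable (fun j : ℕ => |a j * s ^ j|) := by
  obtain ⟨r, h1, h2⟩ := exists_between hs
  have hr0 : 0 < r := (abs_nonneg s).trans_lt h1
  refine Summable.of_nonneg_of_le (fun _ => abs_nonneg _) (fun j => ?_) (summ B K hr0 h2)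
  rw [abs_mul, abs_pow]
  exact mul_le_mul (h j) (pow_le_pow_left₀ (abs_nonneg s) h1.le j) (by positivity)
    (by positivity)

theorem bd1 (a : ℕ → ℝ) (B K : ℕ) (h : ∀ j : ℕ, |a j| ≤ ((B : ℝ) + j) ^ K) :
    ∀ j : ℕ, |((j : ℝ) + 1) * a (j + 1)| ≤ (((B + 1 : ℕ) : ℝ) + j) ^ (K + 1) := by
  intro j
  have h1 := h (j + 1)
  rw [abs_mul, abs_of_nonneg (by positivity : (0 : ℝ) ≤ (j : ℝ) + 1), pow_succ, mul_comm]
  push_cast at h1 ⊢
  have h2 : ((B : ℝ) + 1 + j) = B + (j + 1) := by ring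
  rw [h2]
  refine mul_le_mul h1 ?_ (by positivity) (by positivity)
  have : (0 : ℝ) ≤ B := Nat.cast_nonneg _
  linarith

theorem ps (a : ℕ → ℝ) (B K : ℕ) (h : ∀ j : ℕ, |a j| ≤ ((B : ℝ) + j) ^ K) {s : ℝ}
    (hs : |s| < 1) :
    HasDerivAt (fun s : ℝ => ∑' j : ℕ, a j * s ^ j) (∑' j : ℕ, ((j : ℝ) + 1) * a (j + 1) * s ^ j)
      s := by
  obtain ⟨r, h1, h2⟩ := exists_between hs
  have hr0 : 0 < r := (abs_nonneg s).trans_lt h1
  have hsum : Summable (fun j : ℕ => |((j : ℝ) + 1) * a (j + 1)| * r ^ j) := by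
    refine Summable.of_nonneg_of_le (fun _ => by positivity) (fun j => ?_)
      (summ (B + 1) (K + 1) hr0 h2)
    exact mul_le_mul_of_nonneg_right (bd1 a B K h j) (by positivity)
  have hu : Summable (fun n : ℕ => |(n : ℝ) * a n| * r ^ (n - 1)) := by
    rw [← summable_nat_add_iff 1]
    refine hsum.congr fun j => ?_
    simp
  have hz : (0 : ℝ) ∈ Ioo (-r) r := ⟨by linarith, hr0⟩
  have key := hasDerivAt_tsum_of_isPreconnected (𝕜 := ℝ) (F := ℝ) (t := Ioo (-r) r)
    (g := fun (n : ℕ) (y : ℝ) => a n * y ^ n)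
    (g' := fun (n : ℕ) (y : ℝ) => a n * (n * y ^ (n - 1)))
    (u := fun n : ℕ => |(n : ℝ) * a n| * r ^ (n - 1)) (y₀ := 0) (y := s) hu isOpen_Ioo
    isPreconnected_Ioo (fun n y _ => (hasDerivAt_pow n y).const_mul (a n)) (fun n y hy => ?_)
    hz ?_ ?_
  · have hg' : Summable (fun n : ℕ => a n * (n * s ^ (n - 1))) := by
      refine Summable.of_norm_bounded (g := fun n : ℕ => |(n : ℝ) * a n| * r ^ (n - 1)) hu fun n => ?_
      rw [Real.norm_eq_abs, ← mul_assoc, abs_mul, abs_pow, mul_comm (a n)]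
      exact mul_le_mul_of_nonneg_left (pow_le_pow_left₀ (abs_nonneg s) h1.le _) (abs_nonneg _)
    have heq : ∑' n : ℕ, a n * (n * s ^ (n - 1)) = ∑' j : ℕ, ((j : ℝ) + 1) * a (j + 1) * s ^ j := by
      rw [hg'.tsum_eq_zero_add]
      simp only [CharP.cast_eq_zero, zero_mul, mul_zero, zero_add, add_tsub_cancel_right]
      refine tsum_congr fun j => ?_
      push_cast
      ring
    rw [← heq]
    exact key
  · rw [Real.norm_eq_abs, ← mul_assoc, abs_mul, abs_pow, mul_comm (a n)]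
    refine mul_le_mul_of_nonneg_left (pow_le_pow_left₀ (abs_nonneg y) ?_ _) (abs_nonneg _)
    exact (abs_lt.2 hy).le
  · refine (summable_of_ne_finset_zero (s := {0}) fun n hn => ?_)
    have : n ≠ 0 := by simpa using hn
    simp [this]
  · exact abs_lt.1 h1

theorem cbd (hBD : S_BD) (N : ℕ) (α : ℝ) (A : ℕ) (h0 : 0 ≤ α) (hA : α ≤ A) :
    ∀ j : ℕ, |c N α j| ≤ ((A : ℝ) + j) ^ A := by
  intro j
  refine ((hBD.1 N α A h0 hA j).1).trans ?_
  have h1 : (A + j).choose j ≤ (A + j) ^ A := by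
    rw [Nat.choose_symm_add.symm]
    exact Nat.choose_le_pow _ _
  exact_mod_cast h1

theorem bd2 (hBD : S_BD) (N : ℕ) (α : ℝ) (A : ℕ) (h0 : 0 ≤ α) (hA : α ≤ A) :
    ∀ j : ℕ, |((j : ℝ) + 1) * c N α (j + 1)| ≤ (((A + 1 : ℕ) : ℝ) + j) ^ (A + 1) :=
  bd1 _ A A (cbd hBD N α A h0 hA)

theorem bd3 (hBD : S_BD) (N : ℕ) (α : ℝ) (A : ℕ) (h0 : 0 ≤ α) (hA : α ≤ A) :
    ∀ j : ℕ, |((j : ℝ) + 2) * (j + 1) * c N α (j + 2)| ≤
      (((A + 1 + 1 : ℕ) : ℝ) + j) ^ (A + 1 + 1) := by
  intro j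
  have h1 := bd1 (fun j : ℕ => ((j : ℝ) + 1) * c N α (j + 1)) (A + 1) (A + 1)
    (bd2 hBD N α A h0 hA) j
  refine le_trans (le_of_eq ?_) h1
  push_cast
  congr 1
  ring

theorem cont_c (N j : ℕ) : Continuous (fun α : ℝ => cf N α j) := by
  induction j with
  | zero => exact continuous_const
  | succ j ih =>
    have h1 : Continuous (fun α : ℝ => (cf N α j).1) := continuous_fst.comp ih
    have h2 : Continuous (fun α : ℝ => (cf N α j).2.1) := (continuous_fst.comp continuous_snd).comp ih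
    have h3 : Continuous (fun α : ℝ => (cf N α j).2.2) := (continuous_snd.comp continuous_snd).comp ih
    simp only [cf]
    fun_prop

theorem cont_c' (N j : ℕ) : Continuous (fun α : ℝ => c N α j) :=
  continuous_fst.comp (cont_c N j)

theorem joint (a : ℝ → ℕ → ℝ) (ha : ∀ j, Continuous (fun α => a α j))
    (hb : ∀ A : ℕ, ∃ B K : ℕ, ∀ α : ℝ, 0 ≤ α → α ≤ A → ∀ j : ℕ, |a α j| ≤ ((B : ℝ) + j) ^ K) :
    ContinuousOn (fun z : ℝ × ℝ => ∑' j : ℕ, a z.1 j * z.2 ^ j) (Ici 0 ×ˢ Ioo (-1) 1) := by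
  rintro ⟨α₀, s₀⟩ ⟨h1, h2⟩
  simp only [mem_Ici] at h1
  have hs : |s₀| < 1 := abs_lt.2 h2
  obtain ⟨r, hr1, hr2⟩ := exists_between hs
  have hr0 : 0 < r := (abs_nonneg s₀).trans_lt hr1
  obtain ⟨A, hA⟩ := exists_nat_gt α₀
  obtain ⟨B, K, hBK⟩ := hb A
  have hU : Iio (A : ℝ) ×ˢ Ioo (-r) r ∈ 𝓝 (α₀, s₀) :=
    (isOpen_Iio.prod isOpen_Ioo).mem_nhds ⟨hA, abs_lt.1 hr1⟩
  rw [← continuousWithinAt_inter hU]
  have hc : ContinuousOn (fun z : ℝ × ℝ => ∑' j : ℕ, a z.1 j * z.2 ^ j)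
      ((Ici 0 ×ˢ Ioo (-1) 1) ∩ (Iio (A : ℝ) ×ˢ Ioo (-r) r)) := by
    refine continuousOn_tsum (u := fun j : ℕ => ((B : ℝ) + j) ^ K * r ^ j) (fun j => ?_)
      (summ B K hr0 hr2) ?_
    · have := ha j
      exact Continuous.continuousOn (by fun_prop)
    · rintro j ⟨α, s⟩ ⟨⟨h3, h4⟩, h5, h6⟩
      simp only [mem_Ici] at h3
      simp only [mem_Iio] at h5
      rw [Real.norm_eq_abs, abs_mul, abs_pow]
      exact mul_le_mul (hBK α h3 h5.le j) (pow_le_pow_left₀ (abs_nonneg s) (abs_lt.2 h6).le j)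
        (by positivity) (by positivity)
  exact hc _ ⟨⟨h1, h2⟩, hA, abs_lt.1 hr1⟩

theorem reg : S_BD → S_REG := by
  intro hBD
  refine ⟨fun N α s h0 hs => ?_, fun N => ⟨?_, ?_⟩⟩
  · obtain ⟨A, hA⟩ := exists_nat_ge α
    have b0 := cbd hBD N α A h0 hA
    have b1 := bd2 hBD N α A h0 hA
    have b2 := bd3 hBD N α A h0 hA
    have b4 : ∀ j : ℕ, |((j : ℝ) + 1) ^ 2 * c N α (j + 1)| ≤
        (((A + 1 : ℕ) : ℝ) + j) ^ (A + 1 + 1) := by
      intro j
      have h1 : ((j : ℝ) + 1) ^ 2 * c N α (j + 1) = (((j : ℝ) + 1) * c N α (j + 1)) * (j + 1) := by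
        ring
      rw [h1, abs_mul, pow_succ]
      refine mul_le_mul (b1 j) ?_ (by positivity) (by positivity)
      rw [abs_of_nonneg (by positivity)]
      push_cast
      have : (0 : ℝ) ≤ A := Nat.cast_nonneg _
      linarith
    have s0 := summ' _ _ _ b0 hs
    have s1 := summ' _ _ _ b1 hs
    have s2 := summ' _ _ _ b2 hs
    have s4 := summ' _ _ _ b4 hs
    have d0 := ps _ _ _ b0 hs
    have d1 := ps _ _ _ b1 hs
    refine ⟨s0, s1, s2, s4, d0, ?_, ?_⟩
    · have e1 : G2 N α s = ∑' j : ℕ, ((j : ℝ) + 1) * ((((j + 1 : ℕ) : ℝ) + 1) * c N α (j + 1 + 1)) *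
          s ^ j := by
        unfold G2
        refine tsum_congr fun j => ?_
        push_cast
        ring
      rw [e1]
      exact d1
    · -- the differential equation
      have t0 : HasSum (fun j : ℕ => c N α j * s ^ j) (G N α s) := (s0.of_abs).hasSum
      have t1 : HasSum (fun j : ℕ => ((j : ℝ) + 1) * c N α (j + 1) * s ^ j) (G1 N α s) :=
        (s1.of_abs).hasSum
      have t2 : HasSum (fun j : ℕ => ((j : ℝ) + 2) * (j + 1) * c N α (j + 2) * s ^ j) (G2 N α s) :=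
        (s2.of_abs).hasSum
      -- `s * G2`
      have t3 : HasSum (fun j : ℕ => (j : ℝ) * (j + 1) * c N α (j + 1) * s ^ j) (s * G2 N α s) := by
        rw [← hasSum_nat_add_iff' 1]
        simp only [Finset.range_one, Finset.sum_singleton, CharP.cast_eq_zero, zero_mul, sub_zero]
        refine (t2.mul_left s).congr_fun fun j => ?_
        push_cast
        ring
      set b : ℕ → ℝ := fun i => (i : ℝ) * (i + N) * c N α i with hb
      set H : ℝ := s * G2 N α s + (N + 1) * G1 N α s with hH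
      have t4 : HasSum (fun j : ℕ => b (j + 1) * s ^ j) H := by
        refine (t3.add (t1.mul_left ((N : ℝ) + 1))).congr_fun fun j => ?_
        simp only [hb]
        push_cast
        ring
      have t5 : HasSum (fun j : ℕ => b j * s ^ j) (s * H) := by
        rw [← hasSum_nat_add_iff' 1]
        simp only [Finset.range_one, Finset.sum_singleton]
        have hb0 : b 0 = 0 := by simp [hb]
        rw [hb0, zero_mul, sub_zero]
        refine (t4.mul_left s).congr_fun fun j => ?_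
        ring
      have t6 : HasSum (fun j : ℕ => sh b j * s ^ j) (s * (s * H)) := by
        rw [← hasSum_nat_add_iff' 1]
        simp only [Finset.range_one, Finset.sum_singleton]
        have hb0 : sh b 0 = 0 := by simp [sh]
        rw [hb0, zero_mul, sub_zero]
        refine (t5.mul_left s).congr_fun fun j => ?_
        simp only [sh, Nat.add_eq_zero_iff, one_ne_zero, and_false, if_false,
          add_tsub_cancel_right]
        ring
      have t7 := ((t4.sub (t5.mul_left 2)).add t6).add (t0.mul_left α)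
      have t8 : HasSum (fun _ : ℕ => (0 : ℝ)) (H - 2 * (s * H) + s * (s * H) + α * G N α s) := by
        refine t7.congr_fun fun j => ?_
        have h9 := hBD.2 N α j
        have h10 : b (j + 1) = ((j : ℝ) + 1) * (j + 1 + N) * c N α (j + 1) := by
          simp only [hb]
          push_cast
          ring
        rw [h10]
        have h11 : b j = (j : ℝ) * (j + N) * c N α j := rfl
        rw [h11]
        have h12 : sh b j = sh (fun i => (i : ℝ) * (i + N) * c N α i) j := rfl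
        rw [h12]
        linear_combination (-(s ^ j)) * h9
      have h13 := t8.unique hasSum_zero
      linear_combination h13
  · exact joint (fun α j => c N α j) (fun j => cont_c' N j)
      fun A => ⟨A, A, fun α h0 hA => cbd hBD N α A h0 hA⟩
  · refine joint (fun α j => ((j : ℝ) + 1) * c N α (j + 1))
      (fun j => continuous_const.mul (cont_c' N (j + 1)))
      fun A => ⟨A + 1, A + 1, fun α h0 hA => bd2 hBD N α A h0 hA⟩

end Pool.Agent.W500.HP
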